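import Pool.Agent.helper13.RF.Spec1

set_option autoImplicit false

open NumberField
open scoped nonZeroDivisors

namespace Pool.Agent.RF

theorem FPD : FPD_stmt := by
  intro F N _ _ _ hfin x g hxg
  by_cases hx : x = 0
  · exact ⟨0, by rw [hx, zero_pow (by norm_num)]⟩
  · have h1 : x ^ 2 = Algebra.norm F g ^ 5 := by
      rw [← map_pow, ← hxg, Algebra.norm_algebraMap, hfin]
    refine ⟨Algebra.norm F g ^ 3 / x, ?_⟩
    rw [div_pow, eq_div_iff (pow_ne_zero 5 hx), ← pow_mul, mul_comm 3 5, pow_mul, ← h1]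
    ring

end Pool.Agent.RF
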