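import Pool.Agent.helper13.RF.SpecU

/-!
# RF (MP_16912e_nt), stage 2, block B': row UZA
-/

set_option autoImplicit false

namespace Pool.Agent.RF

open NumberField

theorem UZA (h1 : UUE_stmt) (h2 : UFX_stmt) : UZA_stmt := by
  intro D₀ F _ _ C p q f hp hq hpD hqD z hz hzt
  obtain ⟨p1, p2, p3, p4, p5, p6, p7, p8, p9, p10, p11, p12, p13, p14, p15, p16, p17, p18, p19⟩ := h1 D₀ F C p f hp hpD
  obtain ⟨q1, q2, q3, q4, q5, q6, q7, q8, q9, q10, q11, q12, q13, q14, q15, q16, q17, q18, q19⟩ := h1 D₀ F C q f hq hqD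
  have hD0 : D₀ ≠ 0 := by
    rintro rfl
    have := hp.D0
    rw [hpD] at this
    simp at this
  have h20 : (2 : 𝓞 F) ≠ 0 := two_ne_zero
  -- `τ Z = Z`
  have E1 : C.σ (C.σ (uu C f p)) * uu C f q = uu C f p * C.σ (C.σ (uu C f q)) := by
    have h := congrArg (fun x => C.σ (C.σ x)) hz
    simp only [map_mul, map_pow] at h
    rw [hzt, p18] at h
    rw [← hz, h]
  have E1' : C.σ (C.σ (C.σ (uu C f p))) * C.σ (uu C f q) = C.σ (uu C f p) * C.σ (C.σ (C.σ (uu C f q))) := by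
    have h := congrArg C.σ E1
    simp only [map_mul] at h
    exact h
  have p5' : C.σ (C.σ (th C f p)) ^ 5 = C.σ (C.σ (uu C f p)) ^ 2 * C.σ (uu C f p) := by
    have h := congrArg (fun x => C.σ (C.σ x)) p5
    simp only [map_mul, map_pow] at h
    rw [h, p18 (C.σ (uu C f p))]
  have q5' : C.σ (C.σ (th C f q)) ^ 5 = C.σ (C.σ (uu C f q)) ^ 2 * C.σ (uu C f q) := by
    have h := congrArg (fun x => C.σ (C.σ x)) q5
    simp only [map_mul, map_pow] at h
    rw [h, p18 (C.σ (uu C f q))]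
  have E2 : C.σ (C.σ (th C f p)) * th C f q = th C f p * C.σ (C.σ (th C f q)) := by
    apply C.z5
    rw [mul_pow, mul_pow, p5', q5, p5, q5']
    have e1 : C.σ (C.σ (uu C f p)) ^ 2 * C.σ (uu C f p) * (uu C f q ^ 2 * C.σ (C.σ (C.σ (uu C f q)))) =
        (C.σ (C.σ (uu C f p)) * uu C f q) ^ 2 * (C.σ (uu C f p) * C.σ (C.σ (C.σ (uu C f q)))) := by ring
    have e2 : uu C f p ^ 2 * C.σ (C.σ (C.σ (uu C f p))) * (C.σ (C.σ (uu C f q)) ^ 2 * C.σ (uu C f q)) =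
        (uu C f p * C.σ (C.σ (uu C f q))) ^ 2 * (C.σ (C.σ (C.σ (uu C f p))) * C.σ (uu C f q)) := by ring
    rw [e1, e2, E1, E1']
  -- coordinates
  have tp : th C f p = C.ι p.X + C.ι (25 * p.k) * (f : 𝓞 F) * C.w := rfl
  have tq : th C f q = C.ι q.X + C.ι (25 * q.k) * (f : 𝓞 F) * C.w := rfl
  have tp' : C.σ (C.σ (th C f p)) = C.ι p.X - C.ι (25 * p.k) * (f : 𝓞 F) * C.w := by
    have h : C.σ (C.σ (th C f p)) = C.ι (2 * p.X) - th C f p := by rw [← p7]; ring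
    rw [h, tp, map_mul, map_ofNat]
    ring
  have tq' : C.σ (C.σ (th C f q)) = C.ι q.X - C.ι (25 * q.k) * (f : 𝓞 F) * C.w := by
    have h : C.σ (C.σ (th C f q)) = C.ι (2 * q.X) - th C f q := by rw [← q7]; ring
    rw [h, tq, map_mul, map_ofNat]
    ring
  have K : p.X * (25 * q.k) = q.X * (25 * p.k) := by
    apply p19
    rw [map_mul C.ι p.X, map_mul C.ι q.X]
    rw [tp', tq', tp, tq] at E2
    have h3 : (2 * ((f : 𝓞 F) * C.w)) * (C.ι p.X * C.ι (25 * q.k)) = (2 * ((f : 𝓞 F) * C.w)) * (C.ι q.X * C.ι (25 * p.k)) := by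
      linear_combination E2
    exact mul_left_cancel₀ (mul_ne_zero h20 (mul_ne_zero p12 p11)) h3
  refine ⟨K, ?_, ?_⟩
  · have h := congrArg C.ι K
    rw [map_mul C.ι p.X, map_mul C.ι q.X] at h
    rw [tp, tq]
    linear_combination h
  · obtain ⟨c, hc⟩ := h2 D₀ F C hD0 z hzt
    refine ⟨c, ?_⟩
    apply p19
    rw [map_pow, ← hc]
    symm
    apply C.z5
    have e1 : (z ^ 2) ^ 5 = z ^ 5 * z ^ 5 := by ring
    rw [e1]
    nth_rewrite 2 [hz]
    rw [hz, E1]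
    rw [map_mul, mul_pow, ← p3, ← q3]
    have e2 : uu C f p * C.σ (C.σ (uu C f q)) * (uu C f p * C.σ (C.σ (uu C f q))) =
        uu C f p * C.σ (C.σ (uu C f q)) * (C.σ (C.σ (uu C f p)) * uu C f q) := by rw [E1]
    rw [e2]
    ring

end Pool.Agent.RF
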